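import Mathlib

/-!
Cycle counting for permutations: merging cycles, the Hamming distance to a full cycle, and
bounding the number of cycles by fixed points of powers.
-/

namespace Pool.Agent.Lib.MP_492aa6_al

open Equiv Finset

section cycles

variable {α : Type*}

/-- The number of cycles of `σ`, fixed points included. -/
noncomputable def ncyc (σ : Perm α) : ℕ := Nat.card (Quotient (Perm.SameCycle.setoid σ))

lemma sameCycle_step (σ : Perm α) (x : α) : σ.SameCycle x (σ x) := ⟨1, by simp⟩

lemma sameCycle_of_step [Finite α] (σ τ : Perm α) (h : ∀ x, τ.SameCycle x (σ x)) {x y : α}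
    (hxy : σ.SameCycle x y) : τ.SameCycle x y := by
  obtain ⟨n, hn⟩ := hxy.exists_nat_pow_eq
  subst hn
  clear hxy
  induction n with
  | zero => exact Perm.SameCycle.refl _ _
  | succ n ih =>
    rw [pow_succ', Perm.mul_apply]
    exact ih.trans (h _)

variable [Fintype α] [DecidableEq α]

lemma merge_ij (σ : Perm α) (i j : α) (hij : ¬ σ.SameCycle i j) :
    (σ * swap i j).SameCycle i j := by
  have key : ∀ s : ℕ, (σ * swap i j).SameCycle i ((σ ^ (s + 1)) j) ∨
      (σ * swap i j).SameCycle i j := by
    intro s
    induction s with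
    | zero =>
      left
      refine ⟨1, ?_⟩
      simp
    | succ s ih =>
      rcases ih with ih | ih
      · by_cases hj : (σ ^ (s + 1)) j = j
        · right
          rwa [hj] at ih
        · left
          have hi : (σ ^ (s + 1)) j ≠ i := by
            intro hi
            apply hij
            rw [← hi]
            exact (Perm.SameCycle.symm ⟨((s + 1 : ℕ) : ℤ), by rw [zpow_natCast]⟩)
          refine ih.trans ⟨1, ?_⟩
          rw [zpow_one, Perm.mul_apply, swap_apply_of_ne_of_ne hi hj, pow_succ' σ (s + 1),
            Perm.mul_apply]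
      · right; exact ih
  have hpos : 0 < orderOf σ := orderOf_pos σ
  rcases key (orderOf σ - 1) with h | h
  · have : orderOf σ - 1 + 1 = orderOf σ := by omega
    rw [this, pow_orderOf_eq_one] at h
    simpa using h
  · exact h

lemma merge_step (σ : Perm α) (i j : α) (hij : ¬ σ.SameCycle i j) (x : α) :
    (σ * swap i j).SameCycle x (σ x) := by
  have h0 := merge_ij σ i j hij
  by_cases hi : x = i
  · subst hi
    refine h0.trans ⟨1, ?_⟩
    simp
  · by_cases hj : x = j
    · subst hj
      refine h0.symm.trans ⟨1, ?_⟩
      simp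
    · refine ⟨1, ?_⟩
      rw [zpow_one, Perm.mul_apply, swap_apply_of_ne_of_ne hi hj]

lemma ncyc_merge_lt (σ : Perm α) (i j : α) (hij : ¬ σ.SameCycle i j) :
    ncyc (σ * swap i j) < ncyc σ := by
  classical
  unfold ncyc
  let f : Quotient (Perm.SameCycle.setoid σ) → Quotient (Perm.SameCycle.setoid (σ * swap i j)) :=
    Quotient.map' id (fun x y hxy => sameCycle_of_step σ _ (merge_step σ i j hij) hxy)
  have hf : Function.Surjective f := by
    intro q
    induction q using Quotient.inductionOn' with
    | h x => exact ⟨Quotient.mk'' x, rfl⟩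
  have hninj : ¬ Function.Injective f := by
    intro hinj
    have : (Quotient.mk'' i : Quotient (Perm.SameCycle.setoid σ)) = Quotient.mk'' j := by
      apply hinj
      exact Quotient.sound' (merge_ij σ i j hij)
    exact hij (Quotient.exact' this)
  rw [Nat.card_eq_fintype_card, Nat.card_eq_fintype_card]
  exact Fintype.card_lt_of_surjective_not_injective f hf hninj

lemma hammingDist_swap_le (σ : Perm α) (i j : α) :
    hammingDist (⇑σ) (⇑(σ * swap i j)) ≤ 2 := by
  unfold hammingDist
  calc _ ≤ ({i, j} : Finset α).card := by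
        apply Finset.card_le_card
        intro x hx
        rw [Finset.mem_filter] at hx
        by_contra hcon
        simp only [Finset.mem_insert, Finset.mem_singleton, not_or] at hcon
        apply hx.2
        rw [Perm.mul_apply, swap_apply_of_ne_of_ne hcon.1 hcon.2]
    _ ≤ 2 := Finset.card_le_two

/-- Every permutation is at Hamming distance at most twice its number of cycles of a
transitive one. -/
lemma exists_transitive (σ : Perm α) : ∃ τ : Perm α, (∀ x y, τ.SameCycle x y) ∧
    hammingDist (⇑σ) (⇑τ) ≤ 2 * ncyc σ := by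
  induction h : ncyc σ using Nat.strong_induction_on generalizing σ with
  | _ m ih =>
    by_cases htr : ∀ x y, σ.SameCycle x y
    · exact ⟨σ, htr, by simp⟩
    · push Not at htr
      obtain ⟨i, j, hij⟩ := htr
      have hlt := ncyc_merge_lt σ i j hij
      obtain ⟨τ, hτ, hd⟩ := ih (ncyc (σ * swap i j)) (by omega) (σ * swap i j) rfl
      refine ⟨τ, hτ, ?_⟩
      have h1 := hammingDist_triangle (⇑σ) (⇑(σ * swap i j)) (⇑τ)
      have h2 := hammingDist_swap_le σ i j
      omega

lemma isCycle_of_transitive [Nontrivial α] (τ : Perm α) (h : ∀ x y, τ.SameCycle x y) :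
    τ.IsCycle ∧ τ.support = univ := by
  have hne : ∀ x, τ x ≠ x := by
    intro x hx
    obtain ⟨y, hy⟩ := exists_ne x
    obtain ⟨n, hn⟩ := (h x y).exists_nat_pow_eq
    rw [Perm.pow_apply_eq_self_of_apply_eq_self hx] at hn
    exact hy hn.symm
  obtain ⟨x, _⟩ := exists_pair_ne α
  exact ⟨⟨x, hne x, fun y _ => h x y⟩, by ext y; simp [hne y]⟩

lemma hammingDist_conj (π σ τ : Perm α) :
    hammingDist (⇑(π * σ * π⁻¹)) (⇑(π * τ * π⁻¹)) = hammingDist (⇑σ) (⇑τ) := by
  unfold hammingDist
  apply Finset.card_bij' (fun x _ => π⁻¹ x) (fun x _ => π x)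
  · intro x hx
    simp only [Finset.mem_filter, Finset.mem_univ, true_and, Perm.mul_apply] at hx ⊢
    intro h
    exact hx (by rw [h])
  · intro x hx
    simp only [Finset.mem_filter, Finset.mem_univ, true_and, Perm.mul_apply] at hx ⊢
    intro h
    apply hx
    have := π.injective h
    simpa using this
  · intro x _
    simp
  · intro x _
    simp

/-- Two permutations can be conjugated to be at Hamming distance at most twice the total number
of their cycles. -/
lemma exists_conj_close [Nontrivial α] (σ σ' : Perm α) : ∃ π : Perm α,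
    hammingDist (⇑σ) (⇑(π * σ' * π⁻¹)) ≤ 2 * (ncyc σ + ncyc σ') := by
  obtain ⟨τ, hτ, hd⟩ := exists_transitive σ
  obtain ⟨τ', hτ', hd'⟩ := exists_transitive σ'
  obtain ⟨hc, hs⟩ := isCycle_of_transitive τ hτ
  obtain ⟨hc', hs'⟩ := isCycle_of_transitive τ' hτ'
  have hconj : IsConj τ' τ := hc'.isConj hc (by rw [hs, hs'])
  rw [isConj_iff] at hconj
  obtain ⟨π, hπ⟩ := hconj
  refine ⟨π, ?_⟩
  have h1 := hammingDist_triangle (⇑σ) (⇑τ) (⇑(π * σ' * π⁻¹))
  have h2 : hammingDist (⇑τ) (⇑(π * σ' * π⁻¹)) = hammingDist (⇑σ') (⇑τ') := by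
    rw [← hπ, hammingDist_conj, hammingDist_comm]
  omega

/-- number of fixed points -/
def nfix (σ : Perm α) : ℕ := (univ.filter fun x => σ x = x).card

lemma ncyc_le (σ : Perm α) (K : ℕ) :
    (K + 1) * ncyc σ ≤ Fintype.card α + (K + 1) * ∑ k ∈ Finset.Icc 1 K, nfix (σ ^ k) := by
  classical
  let Q := Quotient (Perm.SameCycle.setoid σ)
  let rep : Q → α := fun q => q.out
  have hrep : ∀ q : Q, (Quotient.mk'' (rep q) : Q) = q := fun q => Quotient.out_eq' q
  have hinj : Function.Injective rep := Quotient.out_injective
  let per : α → ℕ := fun x => Function.minimalPeriod σ x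
  have hper : ∀ x, 0 < per x := by
    intro x
    apply Function.minimalPeriod_pos_of_mem_periodicPts
    exact σ.injective.mem_periodicPts x
  let small : Finset Q := univ.filter fun q => per (rep q) ≤ K
  let big : Finset Q := univ.filter fun q => ¬ per (rep q) ≤ K
  have hsum : small.card + big.card = ncyc σ := by
    unfold ncyc
    rw [Nat.card_eq_fintype_card]
    exact Finset.card_filter_add_card_filter_not _
  have hsmall : small.card ≤ ∑ k ∈ Finset.Icc 1 K, nfix (σ ^ k) := by
    have h1 : small.card ≤ ((Finset.Icc 1 K).biUnion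
        fun k => univ.filter fun x => (σ ^ k) x = x).card := by
      apply Finset.card_le_card_of_injOn rep
      · intro q hq
        have hq' : per (rep q) ≤ K := by simpa [small] using hq
        simp only [Finset.coe_biUnion, Set.mem_iUnion, Finset.mem_coe, Finset.mem_filter,
          Finset.mem_univ, true_and]
        refine ⟨per (rep q), Finset.mem_Icc.2 ⟨hper _, hq'⟩, ?_⟩
        rw [← Perm.iterate_eq_pow]
        exact Function.iterate_minimalPeriod
      · exact hinj.injOn
    exact h1.trans Finset.card_biUnion_le
  have hbig : (K + 1) * big.card ≤ Fintype.card α := by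
    have h1 : (big ×ˢ Finset.range (K + 1)).card ≤ (univ : Finset α).card := by
      apply Finset.card_le_card_of_injOn (fun z => (σ ^ z.2) (rep z.1))
      · intro z _
        exact Finset.mem_coe.2 (Finset.mem_univ _)
      · intro z hz z' hz' h
        simp only [Finset.coe_product, Set.mem_prod, Finset.mem_coe, Finset.mem_range] at hz hz'
        simp only at h
        have hz1 : K < per (rep z.1) := by
          have := hz.1
          simp only [big, Finset.mem_filter, Finset.mem_univ, true_and, not_le] at this
          exact this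
        have hsame : z.1 = z'.1 := by
          rw [← hrep z.1, ← hrep z'.1]
          apply Quotient.sound'
          have a1 : σ.SameCycle (rep z.1) ((σ ^ z.2) (rep z.1)) := ⟨z.2, by simp⟩
          have a2 : σ.SameCycle (rep z'.1) ((σ ^ z'.2) (rep z'.1)) := ⟨z'.2, by simp⟩
          exact a1.trans (h ▸ a2.symm)
        have h2 : z.2 = z'.2 := by
          rw [← hsame] at h
          rw [← Perm.iterate_eq_pow, ← Perm.iterate_eq_pow] at h
          exact (Function.iterate_eq_iterate_iff_of_lt_minimalPeriod
            (lt_of_lt_of_le hz.2 hz1) (lt_of_lt_of_le hz'.2 hz1)).1 h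
        exact Prod.ext hsame h2
    rw [Finset.card_product, Finset.card_range, Finset.card_univ] at h1
    rw [mul_comm]
    exact h1
  rw [← hsum, mul_add]
  have := Nat.mul_le_mul_left (K + 1) hsmall
  omega

end cycles

end Pool.Agent.Lib.MP_492aa6_al
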