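import Mathlib

/-!
Counting lemma: a word with constants whose content is non-trivial has boundedly many
fixed points on average.  Trajectory bookkeeping and the switching argument.
-/

namespace Pool.Agent.Lib.MP_492aa6_al

open Equiv Finset
open scoped Pointwise

section traj

variable {α : Type*} {r : ℕ}

lemma pinv_apply (e : Perm α) (x : α) : e⁻¹ (e x) = x := e.symm_apply_apply x

lemma papply_inv (e : Perm α) (x : α) : e (e⁻¹ x) = x := e.apply_symm_apply x

/-- The permutation attached to a letter `(i, b)`: `g i` if `b` is true, its inverse otherwise. -/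
def act (g : Fin r → Perm α) (s : Fin r × Bool) : Perm α :=
  if s.2 then g s.1 else (g s.1)⁻¹

/-- The inverse letter. -/
def flip (s : Fin r × Bool) : Fin r × Bool := (s.1, !s.2)

/-- The free group element of a letter. -/
def fl (s : Fin r × Bool) : FreeGroup (Fin r) := FreeGroup.mk [s]

@[simp] lemma flip_flip (s : Fin r × Bool) : flip (flip s) = s := by
  simp [flip]

lemma flip_fst (s : Fin r × Bool) : (flip s).1 = s.1 := rfl

lemma act_flip (g : Fin r → Perm α) (s : Fin r × Bool) : act g (flip s) = (act g s)⁻¹ := by
  rcases s with ⟨i, b⟩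
  cases b <;> simp [act, flip]

lemma fl_flip (s : Fin r × Bool) : fl (flip s) = (fl s)⁻¹ := by
  rcases s with ⟨i, b⟩
  cases b <;> simp [fl, flip, FreeGroup.inv_mk, FreeGroup.invRev]

lemma letter_cases (s t : Fin r × Bool) : s.1 ≠ t.1 ∨ s = t ∨ s = flip t := by
  rcases s with ⟨i, b⟩
  rcases t with ⟨j, c⟩
  by_cases h : i = j
  · subst h
    right
    cases b <;> cases c <;> simp [flip]
  · left; exact h

/-- Trajectory of the point `p`. -/
def pos (a : ℕ → Fin r × Bool) (d : ℕ → Perm α) (g : Fin r → Perm α) (p : α) : ℕ → α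
  | 0 => p
  | t + 1 => act g (a t) (d t (pos a d g p t))

/-- Content label along the trajectory. -/
def lab (a : ℕ → Fin r × Bool) : ℕ → FreeGroup (Fin r)
  | 0 => 1
  | t + 1 => fl (a t) * lab a t

variable (a : ℕ → Fin r × Bool) (d : ℕ → Perm α) (g : Fin r → Perm α) (p : α)

/-- the point to which the letter number `t` gets applied -/
def src (t : ℕ) : α := d t (pos a d g p t)

lemma pos_succ (t : ℕ) : pos a d g p (t + 1) = act g (a t) (src a d g p t) := rfl

/-- the step number `t` was already determined by the earlier steps -/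
def IsOld (t : ℕ) : Prop :=
  ∃ s < t, (a s = a t ∧ src a d g p s = src a d g p t) ∨
    (a s = flip (a t) ∧ pos a d g p (s + 1) = src a d g p t)

end traj

section main

variable {α : Type*} {r : ℕ}
variable (a : ℕ → Fin r × Bool) (d : ℕ → Perm α) (g : Fin r → Perm α) (p : α)

/-- If nothing bad happens then nearby points have the same label. -/
lemma lab_eq_of_good [DecidableEq (Perm α)] (l : ℕ) (B : Finset (Perm α)) (h1 : (1 : Perm α) ∈ B)
    (hd : ∀ t ≤ l, d t ∈ B) (hd' : ∀ t ≤ l, (d t)⁻¹ ∈ B) (hinv : ∀ e ∈ B, e⁻¹ ∈ B)
    (hgood : ∀ t < l, IsOld a d g p t ∨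
      ∀ s ≤ t, ∀ e ∈ B ^ (l + 2), pos a d g p (t + 1) ≠ e (pos a d g p s)) :
    ∀ t ≤ l, ∀ s ≤ t, ∀ s' ≤ t, ∀ e ∈ B ^ (l + 2 - t),
      pos a d g p s' = e (pos a d g p s) → lab a s = lab a s' := by
  have hBinv : ∀ k : ℕ, ∀ e ∈ B ^ k, e⁻¹ ∈ B ^ k := by
    intro k
    induction k with
    | zero => intro e he; simp at he; simp [he]
    | succ k ih =>
      intro e he
      rw [pow_succ] at he
      obtain ⟨x, hx, y, hy, rfl⟩ := Finset.mem_mul.1 he
      rw [mul_inv_rev, pow_succ']
      exact Finset.mul_mem_mul (hinv y hy) (ih x hx)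
  have hmono : ∀ {k k' : ℕ}, k ≤ k' → B ^ k ⊆ B ^ k' := fun h => Finset.pow_subset_pow_right h1 h
  intro t
  induction t with
  | zero =>
    intro _ s hs s' hs' e _ _
    obtain rfl : s = 0 := by omega
    obtain rfl : s' = 0 := by omega
    rfl
  | succ t ih =>
    intro htl
    have iht := ih (by omega)
    -- it suffices to treat one index equal to t + 1
    have key : ∀ s ≤ t, ∀ e ∈ B ^ (l + 2 - (t + 1)),
        pos a d g p (t + 1) = e (pos a d g p s) → lab a s = lab a (t + 1) := by
      intro s hs e he heq
      rcases hgood t (by omega) with hold | hnew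
      · obtain ⟨s0, hs0, h | h⟩ := hold
        · obtain ⟨ha, hsrc⟩ := h
          -- same direction
          have hp : pos a d g p (t + 1) = pos a d g p (s0 + 1) := by
            rw [pos_succ, pos_succ, ha, hsrc]
          have h2 : pos a d g p t = ((d t)⁻¹ * d s0) (pos a d g p s0) := by
            simp only [src] at hsrc
            rw [Perm.mul_apply, hsrc, pinv_apply]
          have hlab : lab a s0 = lab a t := by
            apply iht s0 (by omega) t (le_refl t) _ _ h2
            apply hmono (show 2 ≤ l + 2 - t by omega)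
            rw [pow_two]
            exact Finset.mul_mem_mul (hd' t (by omega)) (hd s0 (by omega))
          have hlab2 : lab a (s0 + 1) = lab a (t + 1) := by
            simp only [lab, ha, hlab]
          rw [← hlab2]
          apply iht s hs (s0 + 1) (by omega) e (hmono (by omega) he)
          rw [← hp, heq]
        · obtain ⟨ha, hsrc⟩ := h
          -- opposite direction
          have hp : pos a d g p (t + 1) = src a d g p s0 := by
            rw [pos_succ, ← hsrc, pos_succ, ha, act_flip, papply_inv]
          have hlab : lab a t = lab a (s0 + 1) := by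
            apply iht t (le_refl t) (s0 + 1) (by omega) (d t) _ hsrc
            apply hmono (show 1 ≤ l + 2 - t by omega)
            rw [pow_one]
            exact hd t (by omega)
          have hlab2 : lab a s0 = lab a (t + 1) := by
            simp only [lab] at hlab ⊢
            rw [hlab, ha, fl_flip, mul_inv_cancel_left]
          rw [← hlab2]
          have he' : (d s0)⁻¹ * e ∈ B ^ (l + 2 - t) := by
            have : l + 2 - t = (l + 2 - (t + 1)) + 1 := by omega
            rw [this, pow_succ']
            exact Finset.mul_mem_mul (hd' s0 (by omega)) he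
          apply iht s hs s0 (by omega) _ he'
          rw [Perm.mul_apply, ← heq, hp, src, pinv_apply]
      · exact absurd heq (hnew s hs e (hmono (by omega) he))
    intro s hs s' hs' e he heq
    rcases Nat.lt_or_ge s (t + 1) with h | h
    · rcases Nat.lt_or_ge s' (t + 1) with h' | h'
      · exact iht s (by omega) s' (by omega) e (hmono (by omega) he) heq
      · obtain rfl : s' = t + 1 := by omega
        exact key s (by omega) e he heq
    · obtain rfl : s = t + 1 := by omega
      rcases Nat.lt_or_ge s' (t + 1) with h' | h'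
      · symm
        apply key s' (by omega) e⁻¹ (hBinv _ _ he)
        rw [heq, pinv_apply]
      · obtain rfl : s' = t + 1 := by omega
        rfl

/-- If the final point is the starting point and nothing bad happens, the content is trivial. -/
lemma lab_eq_one_of_good [DecidableEq (Perm α)] (l : ℕ) (B : Finset (Perm α))
    (h1 : (1 : Perm α) ∈ B)
    (hd : ∀ t ≤ l, d t ∈ B) (hd' : ∀ t ≤ l, (d t)⁻¹ ∈ B) (hinv : ∀ e ∈ B, e⁻¹ ∈ B)
    (hgood : ∀ t < l, IsOld a d g p t ∨
      ∀ s ≤ t, ∀ e ∈ B ^ (l + 2), pos a d g p (t + 1) ≠ e (pos a d g p s))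
    (hfix : src a d g p l = p) : lab a l = 1 := by
  have h := lab_eq_of_good a d g p l B h1 hd hd' hinv hgood l le_rfl l le_rfl 0 (Nat.zero_le _)
    (d l) ?_ ?_
  · rw [h]; rfl
  · have : l + 2 - l = 2 := by omega
    rw [this]
    apply Finset.pow_subset_pow_right h1 (show 1 ≤ 2 by omega)
    rw [pow_one]; exact hd l le_rfl
  · change p = src a d g p l
    exact hfix.symm

end main

section switching

variable {α : Type*} [DecidableEq α] {r : ℕ}

/-- Switch the value `x` of the letter `s` to `b`. -/
def sw (g : Fin r → Perm α) (s : Fin r × Bool) (x b : α) : Fin r → Perm α :=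
  Function.update g s.1 (if s.2 then swap x b * g s.1 else g s.1 * swap x b)

lemma act_sw_same (g : Fin r → Perm α) (s : Fin r × Bool) (x b : α) :
    act (sw g s x b) s = swap x b * act g s := by
  rcases s with ⟨i, c⟩
  cases c <;> simp [act, sw, mul_inv_rev]

lemma act_sw_flip (g : Fin r → Perm α) (s : Fin r × Bool) (x b : α) :
    act (sw g s x b) (flip s) = act g (flip s) * swap x b := by
  rw [act_flip, act_flip, act_sw_same, mul_inv_rev, swap_inv]

lemma act_sw_ne (g : Fin r → Perm α) (s s' : Fin r × Bool) (x b : α) (h : s'.1 ≠ s.1) :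
    act (sw g s x b) s' = act g s' := by
  simp [act, sw, Function.update_of_ne h]

lemma sw_sw (g : Fin r → Perm α) (s : Fin r × Bool) (x b : α) :
    sw (sw g s x b) s x b = g := by
  rcases s with ⟨i, c⟩
  cases c <;> simp [sw, mul_assoc, swap_mul_self_mul]

variable (a : ℕ → Fin r × Bool) (d : ℕ → Perm α) (p : α)

/-- values already revealed at time `t` -/
def rev (t : ℕ) (g : Fin r → Perm α) : Finset α :=
  (range t).image (fun s => if a s = a t then pos a d g p (s + 1) else src a d g p s)

lemma card_rev_le (t : ℕ) (g : Fin r → Perm α) : (rev a d p t g).card ≤ t := by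
  unfold rev
  exact Finset.card_image_le.trans (by simp)

lemma pos_sw (t : ℕ) (g : Fin r → Perm α) (b : α) (hold : ¬ IsOld a d g p t)
    (hb : b ∉ rev a d p t g) :
    ∀ s ≤ t, pos a d (sw g (a t) (pos a d g p (t + 1)) b) p s = pos a d g p s := by
  intro s
  induction s with
  | zero => intro _; rfl
  | succ s ih =>
    intro hs
    have ih' := ih (by omega)
    have hsrc : src a d (sw g (a t) (pos a d g p (t + 1)) b) p s = src a d g p s := by
      unfold src
      rw [ih']
    rw [pos_succ a d _ p s, hsrc, pos_succ a d g p s]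
    rcases letter_cases (a s) (a t) with h | h | h
    · rw [act_sw_ne _ _ _ _ _ h]
    · rw [h, act_sw_same, Perm.mul_apply]
      apply swap_apply_of_ne_of_ne
      · intro hx
        apply hold
        refine ⟨s, by omega, Or.inl ⟨h, ?_⟩⟩
        rw [pos_succ a d g p t] at hx
        exact (act g (a t)).injective hx
      · intro hx
        apply hb
        unfold rev
        rw [Finset.mem_image]
        refine ⟨s, by simpa using hs, ?_⟩
        rw [if_pos h, ← hx, pos_succ, h]
    · rw [h, act_sw_flip, Perm.mul_apply]
      have hne : a s ≠ a t := by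
        rw [h]
        intro h'
        have := congrArg Prod.snd h'
        simp [flip] at this
      congr 1
      apply swap_apply_of_ne_of_ne
      · intro hx
        apply hold
        refine ⟨s, by omega, Or.inr ⟨h, ?_⟩⟩
        rw [pos_succ a d g p s, hx, pos_succ a d g p t, h, act_flip, pinv_apply]
      · intro hx
        apply hb
        unfold rev
        rw [Finset.mem_image]
        refine ⟨s, by simpa using hs, ?_⟩
        rw [if_neg hne, hx]

/-- The set of dangerous values at time `t`. -/
def dang (E : Finset (Perm α)) (t : ℕ) (g : Fin r → Perm α) : Finset α :=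
  ((range (t + 1)) ×ˢ E).image (fun q => q.2 (pos a d g p q.1))

lemma card_dang_le (E : Finset (Perm α)) (t : ℕ) (g : Fin r → Perm α) :
    (dang a d p E t g).card ≤ (t + 1) * E.card := by
  unfold dang
  refine Finset.card_image_le.trans ?_
  rw [Finset.card_product, Finset.card_range]

lemma dang_congr (E : Finset (Perm α)) (t : ℕ) (g g' : Fin r → Perm α)
    (h : ∀ s ≤ t, pos a d g' p s = pos a d g p s) : dang a d p E t g' = dang a d p E t g := by
  unfold dang
  apply Finset.image_congr
  intro q hq
  have hq' : q.1 ≤ t := by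
    have := (Finset.mem_product.1 (Finset.mem_coe.1 hq)).1
    simp at this
    omega
  simp only [h _ hq']

variable [Fintype α]

open Classical in
/-- bad tuples at time `t` -/
noncomputable def bad (E : Finset (Perm α)) (t : ℕ) : Finset (Fin r → Perm α) :=
  univ.filter fun g => ¬ IsOld a d g p t ∧ pos a d g p (t + 1) ∈ dang a d p E t g

lemma card_bad_le (E : Finset (Perm α)) (t : ℕ) :
    (bad a d p E t).card * (Fintype.card α - t) ≤
      Fintype.card (Fin r → Perm α) * ((t + 1) * E.card) := by
  classical
  set A : Finset (Σ _ : (Fin r → Perm α), α) :=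
    (bad a d p E t).sigma (fun g => (rev a d p t g)ᶜ) with hA
  set C : Finset (Σ _ : (Fin r → Perm α), α) :=
    (univ : Finset (Fin r → Perm α)).sigma (fun g => dang a d p E t g) with hC
  have h1 : (bad a d p E t).card * (Fintype.card α - t) ≤ A.card := by
    rw [hA, Finset.card_sigma, ← smul_eq_mul, ← Finset.sum_const]
    apply Finset.sum_le_sum
    intro g _
    rw [Finset.card_compl]
    have := card_rev_le a d p t g
    omega
  have h2 : C.card ≤ Fintype.card (Fin r → Perm α) * ((t + 1) * E.card) := by
    rw [hC, Finset.card_sigma]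
    refine (Finset.sum_le_card_nsmul _ _ _ (fun g _ => card_dang_le a d p E t g)).trans ?_
    simp
  refine h1.trans (le_trans ?_ h2)
  have hpos : ∀ q ∈ A, (∀ s ≤ t,
      pos a d (sw q.1 (a t) (pos a d q.1 p (t + 1)) q.2) p s = pos a d q.1 p s) := by
    intro q hq
    rw [hA, Finset.mem_sigma] at hq
    obtain ⟨hq1, hq2⟩ := hq
    rw [bad, Finset.mem_filter] at hq1
    exact pos_sw a d p t q.1 q.2 hq1.2.1 (by simpa using hq2)
  have hpos' : ∀ q ∈ A,
      pos a d (sw q.1 (a t) (pos a d q.1 p (t + 1)) q.2) p (t + 1) = q.2 := by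
    intro q hq
    rw [pos_succ, act_sw_same, Perm.mul_apply, src, hpos q hq t le_rfl]
    change swap (pos a d q.1 p (t + 1)) q.2 (pos a d q.1 p (t + 1)) = q.2
    exact swap_apply_left _ _
  apply Finset.card_le_card_of_injOn
    (fun q => (⟨sw q.1 (a t) (pos a d q.1 p (t + 1)) q.2, pos a d q.1 p (t + 1)⟩ :
      Σ _ : (Fin r → Perm α), α))
  · intro q hq
    have hq0 : q ∈ A := hq
    have hq' := hq0
    rw [hA, Finset.mem_sigma] at hq'
    obtain ⟨hq1, hq2⟩ := hq'
    rw [bad, Finset.mem_filter] at hq1
    simp only [hC, Finset.coe_sigma, Set.mem_sigma_iff, Finset.coe_univ, Set.mem_univ, true_and,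
      Finset.mem_coe]
    rw [dang_congr a d p E t _ _ (hpos q hq0)]
    exact hq1.2.2
  · intro q hq q' hq' h
    have hq0 : q ∈ A := hq
    have hq0' : q' ∈ A := hq'
    simp only [Sigma.mk.injEq, heq_eq_eq] at h
    obtain ⟨h3, h4⟩ := h
    have h5 : q.2 = q'.2 := by
      rw [← hpos' q hq0, ← hpos' q' hq0', h3]
    have h6 : q.1 = q'.1 := by
      rw [← sw_sw q.1 (a t) (pos a d q.1 p (t + 1)) q.2, h3, h4, h5, sw_sw]
    exact Sigma.ext h6 (heq_of_eq h5)

/-- Counting lemma for one starting point. -/
theorem card_fixed_le (l : ℕ) (hlab : lab a l ≠ 1) (B : Finset (Perm α))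
    (h1 : (1 : Perm α) ∈ B) (hd : ∀ t ≤ l, d t ∈ B) (hinv : ∀ e ∈ B, e⁻¹ ∈ B) :
    (univ.filter fun g : Fin r → Perm α => src a d g p l = p).card * (Fintype.card α - l) ≤
      Fintype.card (Fin r → Perm α) * (l * l * B.card ^ (l + 2)) := by
  classical
  have hsub : (univ.filter fun g : Fin r → Perm α => src a d g p l = p) ⊆
      (range l).biUnion fun t => bad a d p (B ^ (l + 2)) t := by
    intro g hg
    rw [Finset.mem_filter] at hg
    by_contra hcon
    apply hlab
    apply lab_eq_one_of_good a d g p l B h1 hd (fun t ht => hinv _ (hd t ht)) hinv _ hg.2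
    intro t ht
    by_contra hcon2
    rw [not_or] at hcon2
    apply hcon
    rw [Finset.mem_biUnion]
    refine ⟨t, by simpa using ht, ?_⟩
    rw [bad, Finset.mem_filter]
    refine ⟨Finset.mem_univ _, hcon2.1, ?_⟩
    obtain ⟨-, h⟩ := hcon2
    push Not at h
    obtain ⟨s, hs, e, he, heq⟩ := h
    rw [dang, Finset.mem_image]
    exact ⟨(s, e), Finset.mem_product.2 ⟨by simpa using Nat.lt_succ_of_le hs, he⟩, heq.symm⟩
  calc (univ.filter fun g : Fin r → Perm α => src a d g p l = p).card * (Fintype.card α - l)
      ≤ (∑ t ∈ range l, (bad a d p (B ^ (l + 2)) t).card) * (Fintype.card α - l) := by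
        gcongr
        exact (Finset.card_le_card hsub).trans Finset.card_biUnion_le
    _ = ∑ t ∈ range l, (bad a d p (B ^ (l + 2)) t).card * (Fintype.card α - l) := by
        rw [Finset.sum_mul]
    _ ≤ ∑ t ∈ range l, Fintype.card (Fin r → Perm α) * (l * B.card ^ (l + 2)) := by
        apply Finset.sum_le_sum
        intro t ht
        have ht' : t < l := by simpa using ht
        calc (bad a d p (B ^ (l + 2)) t).card * (Fintype.card α - l)
            ≤ (bad a d p (B ^ (l + 2)) t).card * (Fintype.card α - t) := by
              gcongr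
          _ ≤ Fintype.card (Fin r → Perm α) * ((t + 1) * (B ^ (l + 2)).card) :=
              card_bad_le a d p _ t
          _ ≤ _ := by
              gcongr
              · omega
              · exact Finset.card_pow_le
    _ = _ := by
        rw [Finset.sum_const, Finset.card_range, smul_eq_mul]
        ring

end switching

end Pool.Agent.Lib.MP_492aa6_al
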